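import Pool.Agent.TH22.UF.Reverse

/-!
# Braidings of C*-tensor categories are unitary

The starting file `Pool.Agent.TH22.UF.Half` proves that a half-braiding of a simple object is unitary.
Here: the boundedness hypothesis used there, and the passage to all objects.
-/

set_option autoImplicit false

open CategoryTheory CategoryTheory.Limits MonoidalCategory

namespace Pool.Agent.W2helper28.BU

open Pool.Agent.TH22.UF Pool.Agent.TH22.UF.CStarTensorStructure

universe v u

section matrices

open scoped ComplexOrder MatrixOrder Matrix.Norms.L2Operator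

/-- a large multiple of the identity minus a Hermitian matrix is `G * Gᴴ` -/
theorem exists_sub {n : Type} [Fintype n] [DecidableEq n] (A : Matrix n n ℂ)
    (hA : A.conjTranspose = A) : ∃ K₀ : ℝ, ∀ K : ℝ, K₀ ≤ K → ∃ G : Matrix n n ℂ,
      (K : ℂ) • (1 : Matrix n n ℂ) = A + G * G.conjTranspose := by
  refine ⟨‖A‖, fun K hK => ?_⟩
  have hsa : IsSelfAdjoint A := hA
  have h1 : A ≤ algebraMap ℝ (Matrix n n ℂ) ‖A‖ := hsa.le_algebraMap_norm_self
  have h2 : algebraMap ℝ (Matrix n n ℂ) ‖A‖ ≤ algebraMap ℝ (Matrix n n ℂ) K :=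
    algebraMap_mono _ hK
  have h3 : 0 ≤ algebraMap ℝ (Matrix n n ℂ) K - A := sub_nonneg.2 (h1.trans h2)
  obtain ⟨B, hB⟩ := CStarAlgebra.nonneg_iff_eq_star_mul_self.mp h3
  refine ⟨B.conjTranspose, ?_⟩
  rw [Matrix.conjTranspose_conjTranspose]
  have h4 : (K : ℂ) • (1 : Matrix n n ℂ) = algebraMap ℝ (Matrix n n ℂ) K := by
    rw [Algebra.algebraMap_eq_smul_one]
    ext i j
    simp [Matrix.smul_apply]
  rw [h4]
  change _ = A + star B * B
  rw [← hB]
  abel

end matrices

section core

variable {D : Type u} [Category.{v} D] [Preadditive D] [Linear ℂ D] [MonoidalCategory D]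
  [MonoidalPreadditive D] [MonoidalLinear ℂ D]

/-- `T` is a finite list of simple objects, and every object is an orthogonal direct sum of members
of the list. -/
structure SS (s : CStarTensorStructure D) {r : ℕ} (T : Fin r → D) : Prop where
  scal : ∀ a, Scal (T a)
  orth : ∀ a b : Fin r, a ≠ b → ∀ f : T a ⟶ T b, f = 0
  dec : ∀ X : D, ∃ (n : Fin r → ℕ) (e : ∀ c, Fin (n c) → (T c ⟶ X)),
    (∀ c, ON s (e c)) ∧ ∑ c, ∑ k, s.star (e c k) ≫ e c k = 𝟙 X

variable {s : CStarTensorStructure D} {r : ℕ} {T : Fin r → D}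

theorem SS.finDec (h : SS s T) : s.FinDec T := by
  intro Y
  obtain ⟨n, e, -, he⟩ := h.dec Y
  let eq := (Fintype.equivFin (Σ c, Fin (n c))).symm
  refine ⟨Fintype.card (Σ c, Fin (n c)), fun k => (eq k).1, fun k => e (eq k).1 (eq k).2, ?_⟩
  rw [← he, ← Fintype.sum_sigma' (fun c k => s.star (e c k) ≫ e c k)]
  exact Equiv.sum_comp eq (fun p : Σ c, Fin (n c) => s.star (e p.1 p.2) ≫ e p.1 p.2)

/-- the endomorphism with given matrices -/
noncomputable def phi (s : CStarTensorStructure D) {T : Fin r → D} {X : D} {n : Fin r → ℕ}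
    (e : ∀ c, Fin (n c) → (T c ⟶ X))
    (M : ∀ c, Matrix (Fin (n c)) (Fin (n c)) ℂ) : X ⟶ X :=
  ∑ c, ∑ k, ∑ l, M c k l • (s.star (e c k) ≫ e c l)

theorem phi_add {X : D} {n : Fin r → ℕ} (e : ∀ c, Fin (n c) → (T c ⟶ X))
    (M M' : ∀ c, Matrix (Fin (n c)) (Fin (n c)) ℂ) :
    phi s e (fun c => M c + M' c) = phi s e M + phi s e M' := by
  unfold phi
  simp only [Matrix.add_apply, add_smul, Finset.sum_add_distrib]

theorem phi_smul_one {X : D} {n : Fin r → ℕ} (e : ∀ c, Fin (n c) → (T c ⟶ X))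
    (he : ∑ c, ∑ k, s.star (e c k) ≫ e c k = 𝟙 X) (z : ℂ) :
    phi s e (fun _ => z • 1) = z • 𝟙 X := by
  unfold phi
  rw [← he, Finset.smul_sum]
  refine Finset.sum_congr rfl fun c _ => ?_
  rw [Finset.smul_sum]
  refine Finset.sum_congr rfl fun k _ => ?_
  rw [Finset.sum_eq_single k]
  · simp
  · intro l _ hl
    simp [Matrix.one_apply_ne (Ne.symm hl)]
  · intro h; exact absurd (Finset.mem_univ _) h

theorem phi_star {X : D} {n : Fin r → ℕ} (e : ∀ c, Fin (n c) → (T c ⟶ X))
    (G : ∀ c, Matrix (Fin (n c)) (Fin (n c)) ℂ) :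
    s.star (phi s e G) = phi s e (fun c => (G c).conjTranspose) := by
  unfold phi
  rw [s.star_sum]
  refine Finset.sum_congr rfl fun c _ => ?_
  rw [s.star_sum]
  simp_rw [s.star_sum, s.star_smul, s.star_comp, s.star_star]
  rw [Finset.sum_comm]
  rfl

theorem phi_mul (h : SS s T) {X : D} {n : Fin r → ℕ} (e : ∀ c, Fin (n c) → (T c ⟶ X))
    (hon : ∀ c, ON s (e c)) (G H : ∀ c, Matrix (Fin (n c)) (Fin (n c)) ℂ) :
    phi s e G ≫ phi s e H = phi s e (fun c => G c * H c) := by
  unfold phi
  rw [Preadditive.sum_comp]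
  refine Finset.sum_congr rfl fun c _ => ?_
  rw [Preadditive.sum_comp]
  refine Finset.sum_congr rfl fun k _ => ?_
  rw [Preadditive.sum_comp]
  have h1 : ∀ l, (G c k l • (s.star (e c k) ≫ e c l)) ≫
      (∑ c', ∑ k', ∑ l', H c' k' l' • (s.star (e c' k') ≫ e c' l')) =
      ∑ l', (G c k l * H c l l') • (s.star (e c k) ≫ e c l') := by
    intro l
    rw [Preadditive.comp_sum, Finset.sum_eq_single c]
    · rw [Preadditive.comp_sum, Finset.sum_eq_single l]
      · rw [Preadditive.comp_sum]
        refine Finset.sum_congr rfl fun l' _ => ?_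
        rw [Linear.smul_comp, Linear.comp_smul, smul_smul]
        congr 1
        have := hon c l l
        rw [if_pos rfl] at this
        rw [Category.assoc, reassoc_of% this]
      · intro k' _ hk'
        rw [Preadditive.comp_sum]
        refine Finset.sum_eq_zero fun l' _ => ?_
        have := hon c l k'
        rw [if_neg (Ne.symm hk')] at this
        rw [Linear.smul_comp, Linear.comp_smul, Category.assoc, reassoc_of% this]
        simp
      · intro hh; exact absurd (Finset.mem_univ _) hh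
    · intro c' _ hc'
      rw [Preadditive.comp_sum]
      refine Finset.sum_eq_zero fun k' _ => ?_
      rw [Preadditive.comp_sum]
      refine Finset.sum_eq_zero fun l' _ => ?_
      have := h.orth c c' (Ne.symm hc') (e c l ≫ s.star (e c' k'))
      rw [Linear.smul_comp, Linear.comp_smul, Category.assoc, reassoc_of% this]
      simp
    · intro hh; exact absurd (Finset.mem_univ _) hh
  simp_rw [h1]
  rw [Finset.sum_comm]
  refine Finset.sum_congr rfl fun l' _ => ?_
  rw [← Finset.sum_smul, Matrix.mul_apply]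

/-- every endomorphism is given by matrices -/
theorem exists_phi (h : SS s T) {X : D} {n : Fin r → ℕ} (e : ∀ c, Fin (n c) → (T c ⟶ X))
    (he : ∑ c, ∑ k, s.star (e c k) ≫ e c k = 𝟙 X) (f : X ⟶ X) :
    ∃ A : ∀ c, Matrix (Fin (n c)) (Fin (n c)) ℂ, f = phi s e A ∧
      ∀ c k l, e c k ≫ f ≫ s.star (e c l) = A c k l • 𝟙 (T c) := by
  have h1 : ∀ c k l, ∃ z : ℂ, e c k ≫ f ≫ s.star (e c l) = z • 𝟙 (T c) :=
    fun c k l => (h.scal c).scalar _
  choose A hA using h1
  refine ⟨A, ?_, hA⟩
  have h2 : f = (∑ c, ∑ k, s.star (e c k) ≫ e c k) ≫ f ≫ ∑ c, ∑ k, s.star (e c k) ≫ e c k := by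
    rw [he, Category.id_comp, Category.comp_id]
  conv_lhs => rw [h2]
  unfold phi
  rw [Preadditive.sum_comp]
  refine Finset.sum_congr rfl fun c _ => ?_
  rw [Preadditive.sum_comp]
  refine Finset.sum_congr rfl fun k _ => ?_
  rw [Preadditive.comp_sum, Preadditive.comp_sum, Finset.sum_eq_single c]
  · rw [Preadditive.comp_sum, Preadditive.comp_sum]
    refine Finset.sum_congr rfl fun l _ => ?_
    have := hA c k l
    rw [Category.assoc]
    have h3 : e c k ≫ f ≫ s.star (e c l) ≫ e c l = A c k l • e c l := by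
      rw [← Category.assoc f, ← Category.assoc (e c k), this, Linear.smul_comp, Category.id_comp]
    rw [h3, Linear.comp_smul]
  · intro c' _ hc'
    rw [Preadditive.comp_sum, Preadditive.comp_sum]
    refine Finset.sum_eq_zero fun l _ => ?_
    have := h.orth c c' (Ne.symm hc') (e c k ≫ f ≫ s.star (e c' l))
    have h3 : e c k ≫ f ≫ s.star (e c' l) ≫ e c' l = 0 := by
      rw [← Category.assoc f, ← Category.assoc (e c k), this, zero_comp]
    rw [Category.assoc, h3, comp_zero]
  · intro hh; exact absurd (Finset.mem_univ _) hh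

theorem SS.bdd (h : SS s T) : s.Bdd := by
  intro Z Z' f
  obtain ⟨n, e, hon, he⟩ := h.dec Z
  obtain ⟨A, hA, hA'⟩ := exists_phi h e he (f ≫ s.star f)
  have hsa : ∀ c, (A c).conjTranspose = A c := by
    intro c
    ext k l
    apply (h.scal c).inj
    rw [← hA']
    rw [Matrix.conjTranspose_apply]
    have := congrArg s.star (hA' c l k)
    rw [s.star_smul, s.star_id] at this
    change (starRingEnd ℂ) (A c l k) • _ = _
    rw [← this]
    simp only [s.star_comp, s.star_star, Category.assoc]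
  have h1 := fun c => exists_sub (A c) (hsa c)
  choose K₀ hK₀ using h1
  have h2 := fun c => hK₀ c (∑ c, |K₀ c|) ((le_abs_self _).trans
    (Finset.single_le_sum (f := fun c => |K₀ c|) (fun c _ => abs_nonneg _) (Finset.mem_univ c)))
  choose G hG using h2
  refine ⟨∑ c, |K₀ c|, phi s e G, ?_⟩
  rw [phi_star, phi_mul h e hon, hA, ← phi_add, ← phi_smul_one e he]
  congr 1
  funext c
  exact hG c

/-- the half-braiding of a braiding -/
def brHalf [BraidedCategory D] (X : D) : HalfBr X where
  c Y := β_ X Y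
  nat f := BraidedCategory.braiding_naturality_right X f
  hex Y Z := by
    have := BraidedCategory.hexagon_forward X Y Z
    rw [← cancel_epi (α_ X Y Z).hom, ← cancel_mono (α_ Y Z X).hom]
    simpa using this

/-- **Braidings are unitary.** -/
theorem star_braiding [BraidedCategory D] (h : SS s T) (h1 : Scal (𝟙_ D)) (X Y Y' : D)
    [ExactPairing Y Y'] : s.star (β_ X Y).hom = (β_ X Y).inv := by
  have key : ∀ a, s.star (β_ (T a) Y).hom = (β_ (T a) Y).inv := fun a =>
    star_halfBr h.finDec h.bdd (h.scal a) h1 (brHalf (T a)) (Y := Y) (Y' := Y')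
  obtain ⟨n, b, ι, hι⟩ := h.finDec X
  have hun : (β_ X Y).hom ≫ s.star (β_ X Y).hom = 𝟙 _ := by
    have e1 : 𝟙 (X ⊗ Y) = ∑ k, (s.star (ι k) ≫ ι k) ▷ Y := by
      rw [← sum_whiskerRight, hι, id_whiskerRight]
    rw [← Category.id_comp ((β_ X Y).hom ≫ s.star (β_ X Y).hom), e1, Preadditive.sum_comp]
    refine Finset.sum_congr rfl fun k _ => ?_
    have e2 : ι k ▷ Y ≫ (β_ X Y).hom = (β_ (T (b k)) Y).hom ≫ Y ◁ ι k :=
      BraidedCategory.braiding_naturality_left (ι k) Y
    have e3 : s.star (ι k) ▷ Y ≫ (β_ (T (b k)) Y).hom = (β_ X Y).hom ≫ Y ◁ s.star (ι k) :=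
      BraidedCategory.braiding_naturality_left (s.star (ι k)) Y
    have e4 := congrArg s.star e3
    simp only [s.star_comp, s.star_whiskerLeft, s.star_whiskerRight, s.star_star] at e4
    rw [comp_whiskerRight, Category.assoc, reassoc_of% e2, ← e4, key,
      Iso.hom_inv_id_assoc]
  rw [← cancel_epi (β_ X Y).hom, hun, Iso.hom_inv_id]

end core

end Pool.Agent.W2helper28.BU
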