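import Pool.Agent.W2helper28.BU.Core

/-!
# Orthonormal eigenvectors of unitary endomorphisms
-/

set_option autoImplicit false

open CategoryTheory CategoryTheory.Limits MonoidalCategory

namespace Pool.Agent.W2helper28.BU

open Pool.Agent.TH22.UF Pool.Agent.TH22.UF.CStarTensorStructure

universe v u

section lin

variable {V : Type*} [NormedAddCommGroup V] [InnerProductSpace ℂ V] [FiniteDimensional ℂ V]

/-- A linear isometry of a finite dimensional complex space has an orthonormal basis of
eigenvectors. -/
theorem eigen_onb (u : V →ₗ[ℂ] V) (hu : ∀ x y, inner ℂ (u x) (u y) = inner ℂ x y) :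
    ∃ (n : ℕ) (b : OrthonormalBasis (Fin n) ℂ V), ∀ i, ∃ z : ℂ, u (b i) = z • b i := by
  classical
  -- eigenvalues have modulus one
  have hmod : ∀ (z : ℂ) (v : V), v ≠ 0 → u v = z • v → (starRingEnd ℂ) z * z = 1 := by
    intro z v hv h
    have h1 := hu v v
    rw [h, inner_smul_left, inner_smul_right, ← mul_assoc] at h1
    have h2 : inner ℂ v v ≠ 0 := inner_self_ne_zero.2 hv
    exact mul_right_cancel₀ h2 (h1.trans (one_mul _).symm)
  have hV' : OrthogonalFamily ℂ (fun μ : Module.End.Eigenvalues u => Module.End.eigenspace u μ)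
      fun μ => (Module.End.eigenspace u μ).subtypeₗᵢ := by
    intro μ ν hμν v w
    have hv : u v = (μ : ℂ) • (v : V) := Module.End.mem_eigenspace_iff.1 v.2
    have hw : u w = (ν : ℂ) • (w : V) := Module.End.mem_eigenspace_iff.1 w.2
    change inner ℂ (v : V) (w : V) = 0
    by_cases hv0 : (v : V) = 0
    · rw [hv0, inner_zero_left]
    have h1 := hu v w
    rw [hv, hw, inner_smul_left, inner_smul_right] at h1
    have h2 := hmod μ v hv0 hv
    by_contra hne
    have h3 : (starRingEnd ℂ) (μ : ℂ) * (ν : ℂ) = 1 := by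
      rw [← mul_assoc] at h1
      exact mul_right_cancel₀ hne (h1.trans (one_mul _).symm)
    have h4 : (starRingEnd ℂ) (μ : ℂ) ≠ 0 := by
      intro h; rw [h, zero_mul] at h2; exact zero_ne_one h2
    exact hμν (Subtype.ext (mul_left_cancel₀ h4 (h2.trans h3.symm)))
  have hV : DirectSum.IsInternal
      (fun μ : Module.End.Eigenvalues u => Module.End.eigenspace u (μ : ℂ)) := by
    rw [hV'.isInternal_iff]
    by_contra hne
    set W : Submodule ℂ V := (⨆ μ : Module.End.Eigenvalues u, Module.End.eigenspace u (μ : ℂ))ᗮ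
      with hW
    -- `W` is invariant
    have hinv : ∀ x ∈ W, u x ∈ W := by
      intro x hx
      rw [hW, Submodule.mem_orthogonal] at hx ⊢
      intro y hy
      induction hy using Submodule.iSup_induction' with
      | mem μ y hy =>
        have h1 : u y = (μ : ℂ) • y := Module.End.mem_eigenspace_iff.1 hy
        by_cases hy0 : y = 0
        · rw [hy0, inner_zero_left]
        have h2 := hmod μ y hy0 h1
        have h3 : (starRingEnd ℂ) (μ : ℂ) ≠ 0 := by
          intro h; rw [h, zero_mul] at h2; exact zero_ne_one h2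
        have h4 := hu y x
        rw [h1, inner_smul_left,
          hx y (Submodule.mem_iSup_of_mem μ hy)] at h4
        exact (mul_eq_zero.1 h4).resolve_left h3
      | zero => rw [inner_zero_left]
      | add y z _ _ ih1 ih2 => rw [inner_add_left, ih1, ih2, add_zero]
    have : Nontrivial W := Submodule.nontrivial_iff_ne_bot.2 hne
    obtain ⟨μ, hμ⟩ := Module.End.exists_eigenvalue (u.restrict hinv)
    obtain ⟨w, hw, hw0⟩ := hμ.exists_hasEigenvector
    have h1 : u (w : V) = μ • (w : V) := by
      have := Module.End.mem_eigenspace_iff.1 hw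
      exact congrArg Subtype.val this
    have hw0' : (w : V) ≠ 0 := fun h => hw0 (Subtype.ext h)
    have h2 : Module.End.HasEigenvalue u μ :=
      Module.End.hasEigenvalue_of_hasEigenvector ⟨Module.End.mem_eigenspace_iff.2 h1, hw0'⟩
    have h3 : (w : V) ∈ ⨆ μ : Module.End.Eigenvalues u, Module.End.eigenspace u (μ : ℂ) :=
      Submodule.mem_iSup_of_mem (⟨μ, h2⟩ : Module.End.Eigenvalues u)
        (Module.End.mem_eigenspace_iff.2 h1)
    exact hw0' (inner_self_eq_zero.1 ((Submodule.mem_orthogonal _ _).1 w.2 _ h3))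
  refine ⟨_, hV.subordinateOrthonormalBasis rfl hV', fun i => ?_⟩
  have := hV.subordinateOrthonormalBasis_subordinate rfl i hV'
  exact ⟨_, Module.End.mem_eigenspace_iff.1 this⟩

end lin

section hom

variable {D : Type u} [Category.{v} D] [Preadditive D] [Linear ℂ D] [MonoidalCategory D]
  [MonoidalPreadditive D] [MonoidalLinear ℂ D] {s : CStarTensorStructure D}

/-- Orthonormal bases of eigenvectors exist. -/
theorem exists_onb_diag {T X : D} (hT : Scal T) [FiniteDimensional ℂ (T ⟶ X)] (U : X ⟶ X)
    (hU : U ≫ s.star U = 𝟙 X) :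
    ∃ (n : ℕ) (b : Module.Basis (Fin n) ℂ (T ⟶ X)), ON s b ∧ Cpl s b ∧
      ∀ k, ∃ z : ℂ, b k ≫ U = z • b k := by
  have h1 : ∀ v w : T ⟶ X, ∃ z : ℂ, w ≫ s.star v = z • 𝟙 T := fun v w => hT.scalar _
  choose ip hip using h1
  have hpos : ∀ v, ∃ t : ℝ, 0 ≤ t ∧ ip v v = (t : ℂ) := by
    intro v
    obtain ⟨t, ht, h⟩ := exists_NS (s := s) hT v
    refine ⟨t, ht, ?_⟩
    apply hT.inj
    rw [← hip]
    exact h
  let core : InnerProductSpace.Core ℂ (T ⟶ X) :=
    { inner := ip
      conj_inner_symm := fun x y => by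
        apply hT.inj
        have := congrArg s.star (hip y x)
        rw [s.star_comp, s.star_star, s.star_smul, s.star_id, hip] at this
        exact this.symm
      re_inner_nonneg := fun x => by
        obtain ⟨t, ht, h⟩ := hpos x
        rw [h]
        simpa using ht
      add_left := fun x y z => by
        apply hT.inj
        rw [add_smul, ← hip, ← hip, ← hip, s.star_add, Preadditive.comp_add]
      smul_left := fun x y r => by
        apply hT.inj
        rw [mul_smul, ← hip, ← hip, s.star_smul, Linear.comp_smul]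
      definite := fun x hx => by
        apply s.eq_zero_of_comp_star
        rw [hip, hx, zero_smul] }
  let _ : NormedAddCommGroup (T ⟶ X) := @InnerProductSpace.Core.toNormedAddCommGroup ℂ (T ⟶ X) _ _ _ core
  let _ : InnerProductSpace ℂ (T ⟶ X) := InnerProductSpace.ofCore core.toCore
  have hfd : FiniteDimensional ℂ (T ⟶ X) := inferInstance
  let u : (T ⟶ X) →ₗ[ℂ] (T ⟶ X) :=
    { toFun := fun v => v ≫ U
      map_add' := fun v w => Preadditive.add_comp _ _ _ _ _ _
      map_smul' := fun z v => Linear.smul_comp _ _ _ _ _ _ }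
  obtain ⟨n, b, hb⟩ := eigen_onb u (fun x y => by
    change ip (x ≫ U) (y ≫ U) = ip x y
    apply hT.inj
    rw [← hip, ← hip, s.star_comp, Category.assoc, reassoc_of% hU])
  refine ⟨_, b.toBasis, ?_, ?_, ?_⟩
  · intro i j
    rw [hip]
    have h2 : ip (b j) (b i) = if j = i then 1 else 0 := orthonormal_iff_ite.mp b.orthonormal j i
    simp only [OrthonormalBasis.coe_toBasis]
    rw [h2]
    by_cases hij : i = j
    · subst hij; simp
    · rw [if_neg (Ne.symm hij), if_neg hij, zero_smul]
  · intro v
    have h2 : ∑ i, ip (b i) v • b i = v := b.sum_repr' v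
    conv_lhs => rw [← h2]
    refine Finset.sum_congr rfl fun i _ => ?_
    simp only [OrthonormalBasis.coe_toBasis]
    rw [hip, Linear.smul_comp, Category.id_comp]
  · intro k
    obtain ⟨z, hz⟩ := hb k
    refine ⟨z, ?_⟩
    simp only [OrthonormalBasis.coe_toBasis]
    exact hz

end hom

end Pool.Agent.W2helper28.BU
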