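import Pool.Agent.W2helper28.BU.Core

/-!
# Unitary fusion categories: every braiding is unitary

If a braided fusion category is unitary as a fusion category, then it is unitary as a braided
fusion category.
-/

set_option autoImplicit false

open CategoryTheory CategoryTheory.Limits MonoidalCategory

namespace Pool.Agent.W2helper28.BU

open Pool.Agent.TH22.UF Pool.Agent.TH22.UF.CStarTensorStructure

universe v u u'

section

variable {C : Type u} [Category.{v} C] [Abelian C] [Linear ℂ C] [HasFiniteBiproducts C]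
  [MonoidalCategory C] [MonoidalPreadditive C] [MonoidalLinear ℂ C] [RigidCategory C]

variable {r : ℕ} {S : Fin r → C}

variable {D : Type u'} [Category.{v} D] [Preadditive D] [Linear ℂ D] [MonoidalCategory D]
  [MonoidalPreadditive D] [MonoidalLinear ℂ D] {s : CStarTensorStructure D}
  (F : D ⥤ C) [F.Monoidal] [F.Additive] [F.Linear ℂ] [F.IsEquivalence]

/-- the preimages of the simple objects -/
noncomputable def pre (F : D ⥤ C) [F.IsEquivalence] (S : Fin r → C) (a : Fin r) : D :=
  F.objPreimage (S a)

theorem ss_of_equiv (s : CStarTensorStructure D) (hC : IsFusionCategory C)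
    (hS : IsSimpleList S) : SS s (pre F S) := by
  classical
  obtain ⟨B₀⟩ := exists_base (S := S) hC.finiteDimensional_hom hS
  let T : Fin r → D := pre F S
  let φ : ∀ a, F.obj (T a) ≅ S a := fun a => F.objObjPreimageIso (S a)
  have hscal : ∀ a, Scal (T a) := by
    intro a
    refine ⟨fun f => ⟨B₀.coef a (homEqv F (φ a) (φ a) f), ?_⟩, ?_⟩
    · apply (homEqv F (φ a) (φ a)).injective
      rw [map_smul]
      conv_lhs => rw [B₀.coef_smul a (homEqv F (φ a) (φ a) f)]
      congr 1
      simp [homEqv]
    · intro h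
      have h1 : homEqv F (φ a) (φ a) (𝟙 (T a)) = 0 := by rw [h, map_zero]
      have h2 : homEqv F (φ a) (φ a) (𝟙 (T a)) = 𝟙 (S a) := by simp [homEqv]
      have h3 := B₀.coef_id a
      rw [← h2, h1, map_zero] at h3
      exact zero_ne_one h3
  have hfd : ∀ X Y : D, FiniteDimensional ℂ (X ⟶ Y) := by
    intro X Y
    have := hC.finiteDimensional_hom (F.obj X) (F.obj Y)
    exact LinearEquiv.finiteDimensional (homEqv F (Iso.refl (F.obj X)) (Iso.refl (F.obj Y))).symm
  have horth : ∀ (a b : Fin r), a ≠ b → ∀ f : T a ⟶ T b, f = 0 := by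
    intro a b hab f
    apply (homEqv F (φ a) (φ b)).injective
    rw [map_zero]
    exact B₀.hom_zero hab _
  refine ⟨hscal, horth, fun X => ?_⟩
  have hon := fun c => @exists_onb D _ _ _ _ _ _ s (T c) X (hscal c) (hfd _ _)
  choose n e he' he using hon
  refine ⟨n, fun c => e c, he', ?_⟩
  obtain ⟨hX⟩ := exists_hstr hS B₀ hC.semisimple (F.obj X)
  have h1 : ∀ c (v : T c ⟶ X), v ≫ (∑ c, ∑ k, s.star (e c k) ≫ e c k) = v := by
    intro c v
    rw [Preadditive.comp_sum, Finset.sum_eq_single c]
    · rw [Preadditive.comp_sum]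
      conv_rhs => rw [he c v]
      refine Finset.sum_congr rfl fun k _ => ?_
      rw [Category.assoc]
    · intro c' _ hc'
      rw [Preadditive.comp_sum]
      refine Finset.sum_eq_zero fun k _ => ?_
      rw [← Category.assoc, horth c c' (Ne.symm hc') (v ≫ s.star (e c' k)), zero_comp]
    · intro h; exact absurd (Finset.mem_univ _) h
  apply F.map_injective
  rw [F.map_id]
  set P := ∑ c, ∑ k, s.star (e c k) ≫ e c k with hP
  have h2 : ∀ c (x : S c ⟶ F.obj X), x ≫ F.map P = x := by
    intro c x
    obtain ⟨y, hy⟩ := F.map_surjective ((φ c).hom ≫ x)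
    have h3 := congrArg F.map (h1 c y)
    rw [F.map_comp, hy, Category.assoc] at h3
    exact (cancel_epi _).mp h3
  calc F.map P = 𝟙 _ ≫ F.map P := (Category.id_comp _).symm
    _ = (∑ a, ∑ s, hX.prj a s ≫ hX.inc a s) ≫ F.map P := by rw [hX.total]
    _ = ∑ a, ∑ s, hX.prj a s ≫ hX.inc a s := by
      rw [Preadditive.sum_comp]
      refine Finset.sum_congr rfl fun a _ => ?_
      rw [Preadditive.sum_comp]
      refine Finset.sum_congr rfl fun k _ => ?_
      rw [Category.assoc, h2]
    _ = 𝟙 _ := hX.total

include F in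
theorem scal_unit (hC : IsFusionCategory C) : Scal (𝟙_ D) := by
  have hsimp := hC.simple_unit
  have hfd := hC.finiteDimensional_hom
  have e : F.obj (𝟙_ D) ≅ 𝟙_ C := (Functor.Monoidal.εIso F).symm
  refine ⟨fun f => ?_, fun h => ?_⟩
  · obtain ⟨z, hz⟩ := endomorphism_simple_eq_smul_id ℂ (homEqv F e e f)
    refine ⟨z, (homEqv F e e).injective ?_⟩
    rw [map_smul, ← hz]
    congr 1
    simp [homEqv]
  · have h1 : homEqv F e e (𝟙 (𝟙_ D)) = 0 := by rw [h, map_zero]
    have h2 : homEqv F e e (𝟙 (𝟙_ D)) = 𝟙 (𝟙_ C) := by simp [homEqv]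
    exact id_nonzero (𝟙_ C) (h2.symm.trans h1)

include F in
theorem exists_dual (Y : D) : ∃ Y' : D, Nonempty (ExactPairing Y Y') := by
  have hd : HasRightDual Y := hasRightDualOfEquivalence (F := F) (G := F.inv)
    (show F ⊣ F.inv from F.asEquivalence.toAdjunction) Y
  exact ⟨hd.rightDual, ⟨hd.exact⟩⟩

end

section

variable {C : Type u} [Category.{v} C] [Abelian C] [Linear ℂ C] [HasFiniteBiproducts C]
  [MonoidalCategory C] [MonoidalPreadditive C] [MonoidalLinear ℂ C] [RigidCategory C]

variable {r : ℕ} {S : Fin r → C}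

/-- **A braided fusion category which is unitary as a fusion category is unitary as a braided
fusion category.** -/
theorem braided_of_unitary [BraidedCategory C] (hC : IsFusionCategory C) (hS : IsSimpleList S)
    (hU : IsUnitary C) : IsBraidedUnitary C := by
  obtain ⟨D, _, _, _, _, s, F, _, _, hFL, hFE⟩ := hU
  have := monoidalPreadditive_of_faithful F
  have := MonoidalLinear.ofFaithful (R := ℂ) F
  let brD : BraidedCategory D := BraidedCategory.ofFullyFaithful F
  let brF : F.Braided :=
    { braided := fun X Y => by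
        change Functor.LaxMonoidal.μ F X Y ≫ F.map (F.preimageIso
          ((Functor.Monoidal.μIso F _ _).symm ≪≫ β_ (F.obj X) (F.obj Y) ≪≫
            Functor.Monoidal.μIso F _ _)).hom = _
        rw [Functor.preimageIso_hom, F.map_preimage]
        simp }
  refine ⟨D, inferInstance, inferInstance, inferInstance, inferInstance, brD, s, F, brF,
    inferInstance, hFL, hFE, fun X Y => ?_⟩
  obtain ⟨Y', ⟨hY⟩⟩ := exists_dual F Y
  exact star_braiding (ss_of_equiv F s hC hS) (scal_unit F hC) X Y Y'

end

end Pool.Agent.W2helper28.BU
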