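import Pool.Agent.W2helper28.BU.Diag
import Pool.Agent.W2helper28.BU.Transport

/-!
# Unitary braided fusion categories have gauges with unitary F-matrices and diagonal braidings
-/

set_option autoImplicit false

open CategoryTheory CategoryTheory.Limits MonoidalCategory

namespace Pool.Agent.W2helper28.BU

open Pool.Agent.TH22.UF Pool.Agent.TH22.UF.CStarTensorStructure

universe v u u'

/-- The braiding matrices of the gauge `g` are diagonal: `R^{ab}_c : V^{ab}_c → V^{ba}_c`,
composition with the braiding `c_{a,b}`, maps each basis vector of `V^{ab}_c` to a scalar multiple of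
a basis vector of `V^{ba}_c`, under a matching (bijection) of the two bases. -/
def DiagonalBraiding {C : Type u} [Category.{v} C] [Preadditive C] [Linear ℂ C]
    [MonoidalCategory C] [BraidedCategory C] {r : ℕ} {S : Fin r → C} (g : Gauge S) : Prop :=
  ∀ a b c : Fin r, ∃ σ : Fin (g.N a b c) ≃ Fin (g.N b a c), ∀ k, ∃ z : ℂ,
    g.basis a b c k ≫ (β_ (S a) (S b)).hom = z • g.basis b a c (σ k)

section abstract

variable {D : Type u} [Category.{v} D] [Preadditive D] [Linear ℂ D] [MonoidalCategory D]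
  [MonoidalPreadditive D] [MonoidalLinear ℂ D] {s : CStarTensorStructure D} {r : ℕ} {T : Fin r → D}

theorem SS.total (h : SS s T) {X : D} {n : Fin r → ℕ} (e : ∀ c, Fin (n c) → (T c ⟶ X))
    (he : ∀ c, Cpl s (e c)) : ∑ c, ∑ k, s.star (e c k) ≫ e c k = 𝟙 X := by
  obtain ⟨m, f, -, hf⟩ := h.dec X
  set P := ∑ c, ∑ k, s.star (e c k) ≫ e c k with hP
  have h1 : ∀ c (v : T c ⟶ X), v ≫ P = v := by
    intro c v
    rw [hP, Preadditive.comp_sum, Finset.sum_eq_single c]
    · rw [Preadditive.comp_sum]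
      conv_rhs => rw [he c v]
      refine Finset.sum_congr rfl fun k _ => ?_
      rw [Category.assoc]
    · intro c' _ hc'
      rw [Preadditive.comp_sum]
      refine Finset.sum_eq_zero fun k _ => ?_
      rw [← Category.assoc, h.orth c c' (Ne.symm hc') (v ≫ s.star (e c' k)), zero_comp]
    · intro h; exact absurd (Finset.mem_univ _) h
  rw [← Category.id_comp P, ← hf, Preadditive.sum_comp]
  refine Finset.sum_congr rfl fun c _ => ?_
  rw [Preadditive.sum_comp]
  refine Finset.sum_congr rfl fun k _ => ?_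
  rw [Category.assoc, h1]

/-- composition with an isomorphism -/
noncomputable def postIso {X Y Z : D} (e : Y ≅ Z) : (X ⟶ Y) ≃ₗ[ℂ] (X ⟶ Z) where
  toFun f := f ≫ e.hom
  map_add' f g := Preadditive.add_comp _ _ _ _ _ _
  map_smul' z f := Linear.smul_comp _ _ _ _ _ _
  invFun f := f ≫ e.inv
  left_inv f := by simp
  right_inv f := by simp

/-- Orthonormal bases which diagonalize the braiding. -/
theorem exists_ONB_diag [BraidedCategory D] (h : SS s T)
    (hβ : ∀ X Y : D, s.star (β_ X Y).hom = (β_ X Y).inv)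
    (hfd : ∀ X Y : D, FiniteDimensional ℂ (X ⟶ Y)) :
    ∃ B : ONB s T, ∀ a b c : Fin r, ∃ σ : Fin (B.N a b c) ≃ Fin (B.N b a c), ∀ k, ∃ z : ℂ,
      B.b a b c k ≫ (β_ (T a) (T b)).hom = z • B.b b a c (σ k) := by
  classical
  -- the bases `d a b c`
  have hd : ∀ a b c : Fin r, ∃ x : (Σ n : ℕ, Module.Basis (Fin n) ℂ (T c ⟶ T a ⊗ T b)),
      ON s x.2 ∧ Cpl s x.2 ∧
      (∀ k, ∃ z : ℂ, x.2 k ≫ ((β_ (T a) (T b)).hom ≫ (β_ (T b) (T a)).hom) = z • x.2 k) ∧
      (∀ e : b = a, ∀ k, ∃ z : ℂ, x.2 k ≫ (β_ (T a) (T b)).hom =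
        z • (x.2 k ≫ eqToHom (by rw [e]))) := by
    intro a b c
    by_cases hab : b = a
    · subst hab
      have := hfd (T c) (T b ⊗ T b)
      obtain ⟨n, x, h1, h2, h3⟩ := exists_onb_diag (s := s) (h.scal c) (X := T b ⊗ T b)
        (β_ (T b) (T b)).hom (by rw [hβ, Iso.hom_inv_id])
      refine ⟨⟨n, x⟩, h1, h2, fun k => ?_, fun _ k => ?_⟩
      · obtain ⟨z, hz⟩ := h3 k
        exact ⟨z * z, by rw [← Category.assoc, hz, Linear.smul_comp, hz, smul_smul]⟩
      · obtain ⟨z, hz⟩ := h3 k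
        exact ⟨z, by simpa using hz⟩
    · have := hfd (T c) (T a ⊗ T b)
      obtain ⟨n, x, h1, h2, h3⟩ := exists_onb_diag (s := s) (h.scal c) (X := T a ⊗ T b)
        ((β_ (T a) (T b)).hom ≫ (β_ (T b) (T a)).hom) (by
          rw [s.star_comp, hβ, hβ]; simp)
      exact ⟨⟨n, x⟩, h1, h2, h3, fun e => absurd e hab⟩
  choose d hd1 hd2 hd3 hd4 using hd
  -- the final bases
  let f : ∀ a b c : Fin r, Σ n : ℕ, Module.Basis (Fin n) ℂ (T c ⟶ T a ⊗ T b) := fun a b c =>
    if a ≤ b then d a b c else ⟨(d b a c).1, (d b a c).2.map (postIso (β_ (T b) (T a)))⟩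
  have hf1 : ∀ a b c, a ≤ b → f a b c = d a b c := fun a b c hab => if_pos hab
  have hf2 : ∀ a b c, ¬ a ≤ b → f a b c =
      ⟨(d b a c).1, (d b a c).2.map (postIso (β_ (T b) (T a)))⟩ := fun a b c hab => if_neg hab
  have hon : ∀ a b c, ON s (f a b c).2 := by
    intro a b c
    by_cases hab : a ≤ b
    · rw [hf1 a b c hab]; exact hd1 a b c
    · rw [hf2 a b c hab]
      intro i j
      simp only [Module.Basis.map_apply]
      change ((d b a c).2 i ≫ (β_ (T b) (T a)).hom) ≫ s.star ((d b a c).2 j ≫ (β_ (T b) (T a)).hom) = _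
      rw [s.star_comp, hβ, Category.assoc, Iso.hom_inv_id_assoc]
      exact hd1 b a c i j
  have hcpl : ∀ a b c, Cpl s (f a b c).2 := by
    intro a b c
    by_cases hab : a ≤ b
    · rw [hf1 a b c hab]; exact hd2 a b c
    · rw [hf2 a b c hab]
      intro v
      simp only [Module.Basis.map_apply]
      change v = ∑ i, (v ≫ s.star ((d b a c).2 i ≫ (β_ (T b) (T a)).hom)) ≫
        ((d b a c).2 i ≫ (β_ (T b) (T a)).hom)
      have h5 := hd2 b a c (v ≫ (β_ (T b) (T a)).inv)
      rw [← cancel_mono (β_ (T b) (T a)).inv]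
      conv_lhs => rw [h5]
      rw [Preadditive.sum_comp]
      refine Finset.sum_congr rfl fun i _ => ?_
      rw [s.star_comp, hβ]
      simp only [Category.assoc, Iso.hom_inv_id, Category.comp_id]
  let B : ONB s T :=
    { N := fun a b c => (f a b c).1
      b := fun a b c => (f a b c).2
      on := hon
      cpl := hcpl
      orth := h.orth
      total := fun a b => h.total _ (fun c => hcpl a b c) }
  refine ⟨B, fun a b c => ?_⟩
  change ∃ σ : Fin (f a b c).1 ≃ Fin (f b a c).1, ∀ k, ∃ z : ℂ,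
    (f a b c).2 k ≫ (β_ (T a) (T b)).hom = z • (f b a c).2 (σ k)
  rcases lt_trichotomy a b with hab | hab | hab
  · rw [hf1 a b c hab.le, hf2 b a c (not_le.2 hab)]
    refine ⟨Equiv.refl _, fun k => ⟨1, ?_⟩⟩
    rw [one_smul]
    simp only [Equiv.refl_apply, Module.Basis.map_apply]
    rfl
  · subst hab
    rw [hf1 a a c le_rfl]
    refine ⟨Equiv.refl _, fun k => ?_⟩
    obtain ⟨z, hz⟩ := hd4 a a c rfl k
    exact ⟨z, by simpa using hz⟩
  · rw [hf2 a b c (not_le.2 hab), hf1 b a c hab.le]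
    refine ⟨Equiv.refl _, fun k => ?_⟩
    obtain ⟨z, hz⟩ := hd3 b a c k
    refine ⟨z, ?_⟩
    simp only [Equiv.refl_apply, Module.Basis.map_apply]
    change ((d b a c).2 k ≫ (β_ (T b) (T a)).hom) ≫ (β_ (T a) (T b)).hom = _
    rw [Category.assoc, hz]

end abstract

section transport

variable {C : Type u} [Category.{v} C] [Abelian C] [Linear ℂ C] [HasFiniteBiproducts C]
  [MonoidalCategory C] [MonoidalPreadditive C] [MonoidalLinear ℂ C] [RigidCategory C]
  [BraidedCategory C]

variable {r : ℕ} {S : Fin r → C}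

variable {D : Type u'} [Category.{v} D] [Preadditive D] [Linear ℂ D] [MonoidalCategory D]
  [MonoidalPreadditive D] [MonoidalLinear ℂ D] [BraidedCategory D] {s : CStarTensorStructure D}
  (F : D ⥤ C) [F.Braided] [F.Additive] [F.Linear ℂ] [F.IsEquivalence]

theorem tenI_braiding {X Y : D} {X' Y' : C} (e : F.obj X ≅ X') (f : F.obj Y ≅ Y') :
    (tenI F e f).hom ≫ (β_ X' Y').hom = F.map (β_ X Y).hom ≫ (tenI F f e).hom := by
  unfold tenI
  simp only [Iso.trans_hom, Iso.symm_hom, Functor.Monoidal.μIso_inv, tensorIso_hom,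
    Category.assoc]
  rw [BraidedCategory.braiding_naturality, F.map_braiding]
  simp

include F in
theorem exists_gauge_diag_aux (s : CStarTensorStructure D) (hC : IsFusionCategory C)
    (hS : IsSimpleList S) (hβ : ∀ X Y : D, s.star (β_ X Y).hom = (β_ X Y).inv) :
    ∃ g : Gauge S, g.UnitaryF ∧ DiagonalBraiding g := by
  classical
  have hSS := ss_of_equiv F s hC hS
  let T : Fin r → D := pre F S
  let φ : ∀ a, F.obj (T a) ≅ S a := fun a => F.objObjPreimageIso (S a)
  have hfd : ∀ X Y : D, FiniteDimensional ℂ (X ⟶ Y) := by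
    intro X Y
    have := hC.finiteDimensional_hom (F.obj X) (F.obj Y)
    exact LinearEquiv.finiteDimensional (homEqv F (Iso.refl (F.obj X)) (Iso.refl (F.obj Y))).symm
  obtain ⟨B, hB⟩ := exists_ONB_diag hSS hβ hfd
  refine ⟨⟨B.N, fun a b' c => (B.b a b' c).map (homEqv F (φ c) (tenI F (φ a) (φ b')))⟩, ?_, ?_⟩
  · intro a b' c d
    obtain ⟨M, hM, hM1, hM2⟩ := B.exists_matrix hSS.scal a b' c d
    refine ⟨M, ?_, hM1, hM2⟩
    intro p
    have hsrc : ∀ p, Gauge.srcVec ⟨B.N, fun a b' c => (B.b a b' c).map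
        (homEqv F (φ c) (tenI F (φ a) (φ b')))⟩ a b' c d p =
        (φ d).inv ≫ F.map (B.src a b' c d p) ≫ (tenI F (tenI F (φ a) (φ b')) (φ c)).hom := by
      rintro ⟨e, k, l⟩
      unfold Gauge.srcVec ONB.src
      simp only [Module.Basis.map_apply, homEqv, LinearEquiv.coe_mk, LinearMap.coe_mk,
        AddHom.coe_mk]
      rw [F.map_comp, Category.assoc, Category.assoc, Category.assoc, ← tenI_left F (φ e)]
    have htgt : ∀ q, Gauge.tgtVec ⟨B.N, fun a b' c => (B.b a b' c).map
        (homEqv F (φ c) (tenI F (φ a) (φ b')))⟩ a b' c d q =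
        (φ d).inv ≫ F.map (B.tgt a b' c d q) ≫ (tenI F (φ a) (tenI F (φ b') (φ c))).hom := by
      rintro ⟨e, k, l⟩
      unfold Gauge.tgtVec ONB.tgt
      simp only [Module.Basis.map_apply, homEqv, LinearEquiv.coe_mk, LinearMap.coe_mk,
        AddHom.coe_mk]
      rw [F.map_comp, Category.assoc, Category.assoc, Category.assoc, ← tenI_right F (φ e)]
    rw [hsrc, Category.assoc, Category.assoc, tenI_assoc, ← F.map_comp_assoc, hM, F.map_sum,
      Preadditive.sum_comp, Preadditive.comp_sum]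
    refine Finset.sum_congr rfl fun q _ => ?_
    rw [htgt, F.map_smul, Linear.smul_comp, Linear.comp_smul]
  · intro a b' c
    obtain ⟨σ, hσ⟩ := hB a b' c
    refine ⟨σ, fun k => ?_⟩
    obtain ⟨z, hz⟩ := hσ k
    refine ⟨z, ?_⟩
    simp only [Module.Basis.map_apply, homEqv, LinearEquiv.coe_mk, LinearMap.coe_mk, AddHom.coe_mk,
      Category.assoc]
    rw [tenI_braiding F (φ a) (φ b'), ← F.map_comp_assoc]
    have hz' : B.b a b' c k ≫ (β_ (T a) (T b')).hom = z • B.b b' a c (σ k) := hz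
    rw [hz', F.map_smul, Linear.smul_comp, Linear.comp_smul]

end transport

section final

variable {C : Type u} [Category.{v} C] [Abelian C] [Linear ℂ C] [HasFiniteBiproducts C]
  [MonoidalCategory C] [MonoidalPreadditive C] [MonoidalLinear ℂ C] [RigidCategory C]
  [BraidedCategory C]

variable {r : ℕ} {S : Fin r → C}

theorem exists_gauge_diag (hC : IsFusionCategory C) (hS : IsSimpleList S)
    (hU : IsBraidedUnitary C) : ∃ g : Gauge S, g.UnitaryF ∧ DiagonalBraiding g := by
  obtain ⟨D, _, _, _, _, _, s, F, _, _, hFL, hFE, hβ⟩ := hU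
  have := monoidalPreadditive_of_faithful F
  have := MonoidalLinear.ofFaithful (R := ℂ) F
  exact exists_gauge_diag_aux F s hC hS hβ

theorem tfae (hC : IsFusionCategory C) (hS : IsSimpleList S) :
    List.TFAE [∃ g : Gauge S, g.UnitaryF, ∃ g : Gauge S, g.UnitaryF ∧ DiagonalBraiding g,
      IsUnitary C, IsBraidedUnitary C] := by
  tfae_have 1 → 3 := fun ⟨g, hg⟩ => isUnitary_of_unitaryF hC hS g hg
  tfae_have 3 → 4 := fun h => braided_of_unitary hC hS h
  tfae_have 4 → 2 := fun h => exists_gauge_diag hC hS h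
  tfae_have 2 → 1 := fun ⟨g, hg, _⟩ => ⟨g, hg⟩
  tfae_finish

end final

end Pool.Agent.W2helper28.BU
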